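import Pool.Agent.Helper80.HD.GoalsA

/-!
# Project HD, packet DEGX
-/

set_option autoImplicit false

open MvPolynomial

noncomputable section

namespace Pool.Agent.Helper86.HD

open Pool.Agent.Helper80.HD IntermediateField

section

variable {K : Type} [Field K] [Algebra K ℂ]

theorem alg_mono {A B : IntermediateField K ℂ} (h : A ≤ B) {a : ℂ} (ha : IsAlgebraic A a) :
    IsAlgebraic B a := by
  obtain ⟨p, hp, hpa⟩ := ha
  refine ⟨p.map (IntermediateField.inclusion h).toRingHom, ?_, ?_⟩
  · exact (Polynomial.map_ne_zero_iff (IntermediateField.inclusion h).toRingHom.injective).2 hp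
  · rw [Polynomial.aeval_def, Polynomial.eval₂_map]
    rw [Polynomial.aeval_def] at hpa
    exact hpa

theorem relfinrank_ne {F₀ F : IntermediateField K ℂ} (h : F₀ ≤ F) (hF : F.FG)
    (ha : ∀ a ∈ F, IsAlgebraic F₀ a) : F₀.relfinrank F ≠ 0 := by
  rw [IntermediateField.relfinrank_eq_finrank_of_le h]
  obtain ⟨s, hs⟩ := hF
  have h1 : IntermediateField.extendScalars h = IntermediateField.adjoin F₀ (s : Set ℂ) := by
    apply le_antisymm
    · intro a haF
      rw [IntermediateField.mem_extendScalars, ← hs] at haF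
      have h2 : IntermediateField.adjoin K (s : Set ℂ) ≤
          (IntermediateField.adjoin F₀ (s : Set ℂ)).restrictScalars K := by
        rw [IntermediateField.adjoin_le_iff]
        intro b hb
        exact IntermediateField.subset_adjoin F₀ _ hb
      exact h2 haF
    · rw [IntermediateField.adjoin_le_iff]
      intro b hb
      show b ∈ IntermediateField.extendScalars h
      rw [IntermediateField.mem_extendScalars, ← hs]
      exact IntermediateField.subset_adjoin K _ hb
  have h3 : ∀ b ∈ (s : Set ℂ), IsIntegral F₀ b := by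
    intro b hb
    have hbF : b ∈ F := by
      rw [← hs]
      exact IntermediateField.subset_adjoin K _ hb
    exact (ha b hbF).isIntegral
  have h4 : FiniteDimensional F₀ (IntermediateField.adjoin F₀ (s : Set ℂ)) :=
    IntermediateField.finiteDimensional_adjoin h3
  rw [h1]
  exact (Module.finrank_pos (R := F₀) (M := IntermediateField.adjoin F₀ (s : Set ℂ))).ne'

variable {k N : ℕ}

theorem ratio_mem (x : Fin (N + 1) → ℂ) (i j : Fin (N + 1)) : x i / x j ∈ ratioField K x :=
  IntermediateField.subset_adjoin K _ ⟨i, j, rfl⟩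

/-- the part of `c` which is used -/
def cpart (p : Fin k → Fin (N + 1)) (c : Fin (k + 1) × Fin (N + 1) → ℂ) :
    {q : Fin k × Fin (N + 1) // q.2 ≠ p q.1} → ℂ := fun q => c (q.1.1.succ, q.1.2)

theorem LKu_le (z : Fin k → Fin (N + 1) → ℂ) (p : Fin k → Fin (N + 1))
    (c : Fin (k + 1) × Fin (N + 1) → ℂ) (M : IntermediateField K ℂ)
    (hz : ∀ i, ratioField K (z i) ≤ M) :
    LK K (gen z p (fun q => c (q.1.succ, q.2))) ≤ M ⊔ LK K (cpart p c) := by
  rw [IntermediateField.adjoin_le_iff]
  rintro _ ⟨q, rfl⟩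
  have hc : ∀ j, j ≠ p q.1 → c (q.1.succ, j) ∈ M ⊔ LK K (cpart p c) := fun j hj =>
    (le_sup_right : LK K (cpart p c) ≤ _)
      (IntermediateField.subset_adjoin K _ ⟨⟨(q.1, j), hj⟩, rfl⟩)
  show gen z p (fun q => c (q.1.succ, q.2)) q ∈ M ⊔ LK K (cpart p c)
  unfold gen
  split_ifs with h
  · refine neg_mem (sum_mem fun j hj => mul_mem (hc j (Finset.ne_of_mem_erase hj)) ?_)
    exact (le_sup_left : M ≤ _) (hz q.1 (ratio_mem _ _ _))
  · exact hc q.2 h

theorem cpart_le (z : Fin k → Fin (N + 1) → ℂ) (p : Fin k → Fin (N + 1))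
    (c : Fin (k + 1) × Fin (N + 1) → ℂ) :
    LK K (cpart p c) ≤ LK K (gen z p (fun q => c (q.1.succ, q.2))) := by
  rw [IntermediateField.adjoin_le_iff]
  rintro _ ⟨⟨q, hq⟩, rfl⟩
  have h : cpart p c ⟨q, hq⟩ = gen z p (fun q => c (q.1.succ, q.2)) q := by
    unfold gen cpart
    rw [if_neg hq]
  show cpart p c ⟨q, hq⟩ ∈ _
  rw [h]
  exact IntermediateField.subset_adjoin K _ ⟨q, rfl⟩

end

theorem degx (hTRZ : S_TRZ) (hPTR : S_PTR) : S_DEGX := by
  intro K _ _ _ F k N x z j0 p c hFG htr hz hx hx0 hzp hc u hu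
  have hF0 : ratioFields K (Fin.cons x z : Fin (k + 1) → Fin (N + 1) → ℂ) ≤ F := by
    refine iSup_le fun i => ?_
    refine Fin.cases ?_ (fun i => ?_) i
    · exact hx.2.1
    · exact (hz i).2.1
  have hx1 : ratioField K x ≤ ratioFields K (Fin.cons x z : Fin (k + 1) → Fin (N + 1) → ℂ) :=
    le_iSup (fun i => ratioField K ((Fin.cons x z : Fin (k + 1) → Fin (N + 1) → ℂ) i)) 0
  have hz1 : ∀ i, ratioField K (z i) ≤
      ratioFields K (Fin.cons x z : Fin (k + 1) → Fin (N + 1) → ℂ) := fun i =>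
    le_iSup (fun i => ratioField K ((Fin.cons x z : Fin (k + 1) → Fin (N + 1) → ℂ) i)) i.succ
  have hne : (ratioFields K (Fin.cons x z : Fin (k + 1) → Fin (N + 1) → ℂ)).relfinrank F ≠ 0 :=
    relfinrank_ne hF0 hFG fun a ha => alg_mono hx1 (hx.2.2 a ha)
  refine ⟨?_, hne⟩
  have htrz := hTRZ K F k N x z j0 p c hFG htr hz hx hx0 hzp hc u hu
  have hc1 : AlgebraicIndependent F (cpart p c) := by
    refine hc.comp (fun q : {q : Fin k × Fin (N + 1) // q.2 ≠ p q.1} => (q.1.1.succ, q.1.2)) ?_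
    rintro ⟨⟨a, b⟩, h⟩ ⟨⟨a', b'⟩, h'⟩ hab
    simp only [Prod.mk.injEq, Fin.succ_inj] at hab
    obtain ⟨rfl, rfl⟩ := hab
    rfl
  have h := hPTR K _ F _ (cpart p c) hF0 hne hc1
  have e1 : LK K u ⊔ ratioField K x =
      ratioFields K (Fin.cons x z : Fin (k + 1) → Fin (N + 1) → ℂ) ⊔ LK K (cpart p c) := by
    apply le_antisymm
    · refine sup_le ?_ (hx1.trans le_sup_left)
      rw [hu]
      exact LKu_le z p c _ hz1
    · refine sup_le (iSup_le fun i => ?_) ?_
      · refine Fin.cases ?_ (fun i => ?_) i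
        · exact le_sup_right
        · exact htrz i
      · rw [hu]
        exact (cpart_le z p c).trans le_sup_left
  have e2 : LK K u ⊔ F = F ⊔ LK K (cpart p c) := by
    apply le_antisymm
    · refine sup_le ?_ le_sup_left
      rw [hu]
      exact LKu_le z p c _ fun i => (hz i).2.1
    · refine sup_le le_sup_right ?_
      rw [hu]
      exact (cpart_le z p c).trans le_sup_left
  rw [e1, e2]
  exact h

end Pool.Agent.Helper86.HD
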