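import Pool.Agent.Helper80.HD.GoalsB

/-!
# Project HD, packet NAH
-/

set_option autoImplicit false

open MvPolynomial

noncomputable section

namespace Pool.Agent.Helper86.HD

open Pool.Agent.Helper80.HD

theorem nah (hNF : S_NF) (hGNM : S_GNM) : S_NAH := by
  intro L F' Ω _ _ _ _ _ _ _ _ w hw N x hx
  have h1 := (hNF L F' N x).2.1 Ω
  have h2 := (hGNM.1 Ω (Fin (N + 1)) w hw).2.2 (F' →ₐ[L] Ω) Finset.univ
    (fun τ => ∑ j, C (τ (x j)) * X j)
  have h3 : ∀ τ : F' →ₐ[L] Ω, gn w (∑ j, C (τ (x j)) * X j : MvPolynomial (Fin (N + 1)) Ω) =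
      vn w (fun j => τ (x j)) := fun τ => (hGNM.2.2 Ω N w (fun j => τ (x j))).2.2.2
  have h4 : ∀ τ : F' →ₐ[L] Ω, 0 < vn w (fun j => τ (x j)) := by
    intro τ
    refine (hGNM.2.2 Ω N w (fun j => τ (x j))).2.2.1 fun h => hx ?_
    funext j
    have h5 : τ (x j) = 0 := congrFun h j
    exact (map_eq_zero τ).1 h5
  rw [h1, h2, Finset.prod_congr rfl fun τ _ => h3 τ]
  exact Real.log_prod fun τ _ => (h4 τ).ne'

end Pool.Agent.Helper86.HD
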